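import Pool.Agent.Q205.WV.Stm

/-!
# Choice of the parameters of the first level (WV-LEV0)
-/

set_option autoImplicit false

namespace Pool.Agent.Q176.WV.LEV0

open MeasureTheory Filter Pool.Agent.W792.LL Pool.Agent.W792.WA Pool.Agent.Q205.WV
open scoped Topology

/-- a small `γ` for the moment -/
lemma exists_gamma (p A ε : ℝ) (hp : 1 < p) (hp2 : p < 2) (hA : 0 < A) (hε : 0 < ε) :
    ∃ γ : ℝ, 0 < γ ∧ γ ≤ 1 ∧ 2 * γ ^ p * (A * γ ^ 2) ^ (1 - p) / (p - 1) ≤ ε := by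
  have hA1 : 0 < A ^ (1 - p) := Real.rpow_pos_of_pos hA _
  have hp1 : 0 < p - 1 := by linarith
  have h2p : 0 < 2 - p := by linarith
  set E : ℝ := ε * (p - 1) / (2 * A ^ (1 - p)) with hE
  have hE0 : 0 < E := by positivity
  have hr0 : 0 < E ^ (2 - p)⁻¹ := Real.rpow_pos_of_pos hE0 _
  refine ⟨min 1 (E ^ (2 - p)⁻¹), lt_min one_pos hr0, min_le_left _ _, ?_⟩
  set γ : ℝ := min 1 (E ^ (2 - p)⁻¹) with hγ
  have hγ0 : 0 < γ := lt_min one_pos hr0
  have h1 : γ ^ (2 - p) ≤ E := by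
    calc γ ^ (2 - p) ≤ (E ^ (2 - p)⁻¹) ^ (2 - p) :=
          Real.rpow_le_rpow hγ0.le (min_le_right _ _) h2p.le
      _ = E := Real.rpow_inv_rpow hE0.le h2p.ne'
  have h2 : γ ^ p * (A * γ ^ 2) ^ (1 - p) = A ^ (1 - p) * γ ^ (2 - p) := by
    rw [Real.mul_rpow hA.le (by positivity), ← Real.rpow_natCast γ 2, ← Real.rpow_mul hγ0.le,
      mul_left_comm, ← Real.rpow_add hγ0]
    congr 2
    push_cast
    ring
  rw [div_le_iff₀ hp1]
  calc 2 * γ ^ p * (A * γ ^ 2) ^ (1 - p) = 2 * (γ ^ p * (A * γ ^ 2) ^ (1 - p)) := by ring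
    _ = 2 * A ^ (1 - p) * γ ^ (2 - p) := by rw [h2]; ring
    _ ≤ 2 * A ^ (1 - p) * E := mul_le_mul_of_nonneg_left h1 (by positivity)
    _ = ε * (p - 1) := by
        rw [hE]
        field_simp

theorem main : S_TAN → S_LEVA → S_LEV0 := by
  intro hTAN hLEVA p κ D ε hp hp2 hκ hκ1 hε
  set D' : ℝ := max D 0 with hD'
  have hD0 : 0 ≤ D' := le_max_right _ _
  set c : ℝ := 1 / (D' + 3) ^ 2 with hc
  have hc0 : 0 < c := by positivity
  have hc9 : c ≤ 1 / 9 := by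
    rw [hc]
    refine one_div_le_one_div_of_le (by norm_num) ?_
    nlinarith
  obtain ⟨γ, hγ0, hγ1, hmom⟩ := exists_gamma p (c ^ 2 * κ / 64) ε hp hp2 (by positivity) hε
  have hcγ : c * γ ≤ 1 / 9 := by nlinarith
  have hcγ0 : 0 < c * γ := by positivity
  set η : ℝ := c * γ * κ / 8 with hη
  have hη0 : 0 < η := by positivity
  have hη1 : η < 1 := by
    rw [hη]
    nlinarith
  set τ : ℝ := c ^ 2 * κ / 64 * γ ^ 2 with hτ
  have hτ0 : 0 < τ := by positivity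
  have hτη : 8 * τ / η = c * γ := by
    rw [div_eq_iff hη0.ne', hτ, hη]
    ring
  have hτ1 : τ ≤ 1 / 2 := by
    have h1 : τ = η * (c * γ) / 8 := by
      rw [hτ, hη]
      ring
    rw [h1]
    nlinarith
  obtain ⟨ψ, R, hψ, hR, hf, hm⟩ := hTAN γ τ hγ0 hτ0 hτ1
  refine ⟨ψ, R, η, 1 - c * γ, hψ, hR, hη0, hη1, by linarith, by linarith, ?_, ?_, ?_⟩
  · rw [hη]
    have h1 : c * γ ≤ 1 - (1 - c * γ) ^ 2 := by nlinarith
    have h2 := mul_le_mul_of_nonneg_right h1 hκ.le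
    linarith
  · exact (hm p hp hp2).trans hmom
  · intro ρ' _ hρ x s hx hxi hs
    have h1 := hLEVA γ τ η D' R ψ hψ hR hγ0 hγ1 hτ0 hη0 hη1 hD0 hf ρ' hρ x s
      (hx.trans (le_max_left _ _)) hxi hs
    refine h1.trans ?_
    rw [hτη]
    have h2 : 4 * γ / (D' + 3) ^ 2 = 4 * (c * γ) := by
      rw [hc]
      ring
    have h3 : Real.sqrt (1 - 4 * γ / (D' + 3) ^ 2) ≤ 1 - 2 * (c * γ) := by
      rw [h2]
      refine Real.sqrt_le_iff.2 ⟨by linarith, by nlinarith⟩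
    linarith

end Pool.Agent.Q176.WV.LEV0
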